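import Pool.Agent.helper63.TI.SpecA

/-!
# Project ti (MP_3703a7_ag), row APD: approximation of families in `su` by automorphisms
-/

set_option autoImplicit false

namespace Pool.Agent.TI

open Polynomial NumberField Pool.Agent.GJ Pool.Agent.TK Pool.Agent.TQ Pool.Agent.TFQ Pool.Agent.TD Pool.Agent.AQ
open Pool.Agent.FJ (VT Om chiO IsFrobO rf rs)
open scoped TensorProduct

noncomputable section

/-- the automorphisms which fix the branch points of all curves and all roots of unity -/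
def APD_R {l : ℕ} [Fact l.Prime] (D : Dat l) : Subgroup (Om ≃+* Om) where
  carrier := {σ | D.Fix σ ∧ ∀ (N : ℕ) (x : Om), 0 < N → x ^ N = 1 → σ x = x}
  one_mem' := ⟨fun _ _ => rfl, fun _ _ _ _ => rfl⟩
  mul_mem' := by
    rintro a b ⟨ha, ha'⟩ ⟨hb, hb'⟩
    refine ⟨fun i j => ?_, fun N x hN hx => ?_⟩
    · change a (b (D.a i j)) = D.a i j
      rw [hb i j, ha i j]
    · change a (b x) = x
      rw [hb' N x hN hx, ha' N x hN hx]
  inv_mem' := by
    rintro a ⟨ha, ha'⟩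
    refine ⟨fun i j => ?_, fun N x hN hx => ?_⟩
    · change a.symm (D.a i j) = D.a i j
      rw [RingEquiv.symm_apply_eq, ha i j]
    · change a.symm x = x
      rw [RingEquiv.symm_apply_eq, ha' N x hN hx]

theorem APD_prim (l : ℕ) [Fact l.Prime] : ∃ s : rootsOfUnity l Om, Prim s := by
  have : NeZero (l : Om) := ⟨by exact_mod_cast (Fact.out (p := l.Prime)).ne_zero⟩
  obtain ⟨ζ, hζ⟩ := HasEnoughRootsOfUnity.exists_primitiveRoot Om l
  have : NeZero l := ⟨(Fact.out (p := l.Prime)).ne_zero⟩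
  exact ⟨hζ.toRootsOfUnity, hζ⟩

/-- the representation of the group `R` on `V_l(J_i)` -/
def APD_rho {l : ℕ} [Fact l.Prime] (D : Dat l) (hNB1 : TQ.NB1_stmt) (hDD : GJ.DD_stmt) (i : Fin D.k) :
    APD_R D →* Module.End ℚ_[l] (VA D l i) :=
  have hl0 : NeZero (l : Om) := ⟨by exact_mod_cast (Fact.out (p := l.Prime)).ne_zero⟩
  have hded : ∀ i, IsDedekindDomain (CR Om l (D.μ i) (D.a i)) := fun i => hDD Om l _ _ _
  { toFun := fun σ => galA l σ.2.1 i
    map_one' := (hNB1 l l D).2.1 _ i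
    map_mul' := fun a b => (hNB1 l l D).1 a.1 b.1 a.2.1 b.2.1 _ i }

theorem APD (hAP1 : AP1_stmt) (hAP2 : AP2_stmt) (hAP3 : AP3_stmt) (hBIG : BIG_stmt) (hNB1 : TQ.NB1_stmt) (hDD : GJ.DD_stmt) :
    APD_stmt := by
  intro l _ hl2 D hInd hSep θ hOK N' hN' Y hY m
  have hl0 : NeZero (l : Om) := ⟨by exact_mod_cast (Fact.out (p := l.Prime)).ne_zero⟩
  have hded : ∀ i, IsDedekindDomain (CR Om l (D.μ i) (D.a i)) := fun i => hDD Om l _ _ _
  have hN := hNB1 l l D
  obtain ⟨n1, n2, n3, n4, n5, n6, n7, n8, n9, n10, n11, n12, n13⟩ := hN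
  have hfin : ∀ i, FiniteDimensional ℚ_[l] (VA D l i) := fun i => by
    obtain ⟨s, hs⟩ := APD_prim l
    obtain ⟨v, b, -⟩ := hOK.free i s hs
    exact Module.Finite.of_basis b
  have hL : ∀ i, Lat l (TZ D l i) := fun i => by
    obtain ⟨T, hT, hTm⟩ := n12 i (hfin i)
    have h1 : T = TZ D l i := by
      ext f
      exact hTm f
    rw [← h1]
    exact hT
  let ρ : ∀ i, APD_R D →* Module.End ℚ_[l] (VA D l i) := fun i => APD_rho D hNB1 hDD i
  let G' : Subgroup (APD_R D) := N'.subgroupOf (APD_R D)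
  obtain ⟨a0, a1, a2⟩ := hAP1 l D.k (fun i => VA D l i) (APD_R D) (fun i => TZ D l i) ρ G' hL
  let M : Submodule ℚ_[l] (∀ i, Module.End ℚ_[l] (VA D l i)) :=
    { carrier := {Y | Ap (fun i => TZ D l i) ρ G' Y}
      zero_mem' := a0
      add_mem' := fun {Y Y'} h h' => a1 Y Y' h h'
      smul_mem' := fun c Y h => a2 c Y h }
  have hM : Y ∈ M := by
    refine hBIG l hl2 D hInd hSep θ hOK M ?_ ?_ Y hY
    · intro A hA A' hA'
      exact hAP2 l D.k (fun i => VA D l i) (APD_R D) (fun i => TZ D l i) ρ G' hL A A' hA hA'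
    · intro σ h hσ A hA
      refine hAP3 l D.k (fun i => VA D l i) (APD_R D) (fun i => TZ D l i) ρ G' hL ?_ ⟨σ, h, hσ⟩ A hA
      intro g
      obtain ⟨m, hm, hg⟩ := hN' g.1
      refine ⟨m, hm, ?_⟩
      rw [Subgroup.mem_subgroupOf]
      exact hg
  obtain ⟨N0, hN0⟩ := hM m
  refine ⟨N0, fun N hN => ?_⟩
  obtain ⟨g, hg, hgN⟩ := hN0 N hN
  exact ⟨g.1, g.2.1, Subgroup.mem_subgroupOf.1 hg, g.2.2, hgN⟩

end

end Pool.Agent.TI
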